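import Pool.Agent.helper81.EP.SpecO

/-! # ep: OL -/

set_option autoImplicit false

open Finset
open scoped Real

noncomputable section

namespace Pool.Agent.EP

/-- the final comparison of exponents -/
theorem OL_cmp (y g δ ε₀ : ℝ) (hy : 1 ≤ y) (hδ : 0 < δ) (he : ε₀ = 100 * δ) (hg1 : 1 / 2 ≤ g)
    (hg2 : g ≤ 3 / 4 - ε₀) (hbig : 32 < y ^ δ)
    (h : y ^ (g - δ) * y ^ (g + 5 * δ / 2) ≤ y ^ (2 * δ) * (32 * y ^ (4 * g - 1 + 10 * δ)) ^ (g + δ)) :
    False := by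
  have hy0 : 0 < y := by linarith
  have h1 : y ^ (g - δ) * y ^ (g + 5 * δ / 2) = y ^ (2 * g + 3 * δ / 2) := by
    rw [← Real.rpow_add hy0]
    congr 1
    ring
  have h2 : y ^ (2 * g) ≤ y ^ (2 * g + 3 * δ / 2) :=
    Real.rpow_le_rpow_of_exponent_le hy (by linarith)
  have h3 : (32 * y ^ (4 * g - 1 + 10 * δ)) ^ (g + δ) ≤ 32 * y ^ ((4 * g - 1) * g + 12 * δ) := by
    rw [Real.mul_rpow (by norm_num) (Real.rpow_nonneg hy0.le _), ← Real.rpow_mul hy0.le]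
    have e1 : (32 : ℝ) ^ (g + δ) ≤ 32 := by
      calc (32 : ℝ) ^ (g + δ) ≤ 32 ^ (1 : ℝ) :=
            Real.rpow_le_rpow_of_exponent_le (by norm_num) (by linarith)
        _ = 32 := Real.rpow_one _
    have e2 : y ^ ((4 * g - 1 + 10 * δ) * (g + δ)) ≤ y ^ ((4 * g - 1) * g + 12 * δ) := by
      apply Real.rpow_le_rpow_of_exponent_le hy
      nlinarith
    exact mul_le_mul e1 e2 (Real.rpow_nonneg hy0.le _) (by norm_num)
  have h4 : y ^ (2 * g) ≤ y ^ (2 * δ) * (32 * y ^ ((4 * g - 1) * g + 12 * δ)) := by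
    refine (h2.trans (h1 ▸ h)).trans ?_
    exact mul_le_mul_of_nonneg_left h3 (Real.rpow_nonneg hy0.le _)
  have h5 : y ^ (2 * δ) * (32 * y ^ ((4 * g - 1) * g + 12 * δ)) =
      32 * y ^ ((4 * g - 1) * g + 14 * δ) := by
    rw [mul_left_comm, ← Real.rpow_add hy0]
    congr 2
    ring
  have h6 : y ^ ((4 * g - 1) * g + 14 * δ) * y ^ δ ≤ y ^ (2 * g) := by
    rw [← Real.rpow_add hy0]
    apply Real.rpow_le_rpow_of_exponent_le hy
    nlinarith
  rw [h5] at h4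
  have h7 : 0 < y ^ ((4 * g - 1) * g + 14 * δ) := Real.rpow_pos_of_pos hy0 _
  nlinarith

theorem OL (hOA : OA_stmt) (hOT : OT_stmt) : OL_stmt := by
  intro ε hε X₀
  by_contra hcon
  push Not at hcon
  set ε₀ : ℝ := min ε (1 / 8) with hε₀
  have hε₀pos : 0 < ε₀ := lt_min hε (by norm_num)
  have hε₀le : ε₀ ≤ ε := min_le_left _ _
  have hε₀8 : ε₀ ≤ 1 / 8 := min_le_right _ _
  set Γ : Set ℝ := {c | ∃ y₀ : ℕ, ∀ y : ℕ, y₀ ≤ y → (sO y : ℝ) ≤ (y : ℝ) ^ c} with hΓ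
  have hm1 : 3 / 4 - ε₀ ∈ Γ := by
    refine ⟨max X₀ 1, fun y hy => ?_⟩
    have hy1 : (1 : ℝ) ≤ y := by exact_mod_cast (le_max_right _ _).trans hy
    refine (hcon y ((le_max_left _ _).trans hy)).le.trans ?_
    exact Real.rpow_le_rpow_of_exponent_le hy1 (by linarith)
  set θ : ℝ := (Real.sqrt 33 - 1) / 8 with hθ
  have hθ2 : 1 / 2 < θ := by
    have h1 : (5 : ℝ) < Real.sqrt 33 := by
      rw [Real.lt_sqrt (by norm_num)]
      norm_num
    rw [hθ]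
    linarith
  have hm2 : ∀ c ∈ Γ, θ ≤ c := by
    rintro c ⟨y₀, hy₀⟩
    by_contra hlt
    push Not at hlt
    obtain ⟨y₁, hy₁⟩ := hOT ((θ - c) / 2) (by linarith)
    set y := max (max y₀ y₁) 2 with hy
    have h1 := hy₀ y ((le_max_left _ _).trans (le_max_left _ _))
    have h2 := hy₁ y ((le_max_right _ _).trans (le_max_left _ _))
    have hy2 : (2 : ℝ) ≤ y := by exact_mod_cast le_max_right (max y₀ y₁) 2
    have h3 : (y : ℝ) ^ c < (y : ℝ) ^ (θ - (θ - c) / 2) :=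
      Real.rpow_lt_rpow_of_exponent_lt (by linarith) (by linarith)
    linarith
  have hne : Γ.Nonempty := ⟨_, hm1⟩
  have hbdd : BddBelow Γ := ⟨θ, hm2⟩
  set g : ℝ := sInf Γ with hg
  have hg1 : θ ≤ g := le_csInf hne hm2
  have hg2 : g ≤ 3 / 4 - ε₀ := csInf_le hbdd hm1
  set δ : ℝ := ε₀ / 100 with hδ
  have hδ0 : 0 < δ := by positivity
  have hε₀δ : ε₀ = 100 * δ := by rw [hδ]; ring
  obtain ⟨y₀, hy₀⟩ : g + δ ∈ Γ := by
    obtain ⟨c, ⟨y₀, hc⟩, hlt⟩ := exists_lt_of_csInf_lt hne (show sInf Γ < g + δ by linarith)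
    refine ⟨max y₀ 1, fun y hy => ?_⟩
    have hy1 : (1 : ℝ) ≤ y := by exact_mod_cast (le_max_right _ _).trans hy
    refine (hc y ((le_max_left _ _).trans hy)).trans ?_
    exact Real.rpow_le_rpow_of_exponent_le hy1 hlt.le
  have hm4 : g - δ ∉ Γ := notMem_of_lt_csInf (show g - δ < sInf Γ by linarith) hbdd
  obtain ⟨Z₀, hZ₀⟩ := hOA (δ / 15) (by positivity) (by linarith)
  obtain ⟨N, hN⟩ : ∃ N : ℕ, ∀ y : ℕ, N ≤ y → (32 : ℝ) < (y : ℝ) ^ δ := by
    have h1 := ((tendsto_rpow_atTop hδ0).comp tendsto_natCast_atTop_atTop).eventually_gt_atTop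
      (32 : ℝ)
    exact Filter.eventually_atTop.1 h1
  obtain ⟨Y, hYbig, hY⟩ : ∃ Y : ℕ, max (max N y₀) (max Z₀ 32) ≤ Y ∧
      (Y : ℝ) ^ (g - δ) < sO Y := by
    by_contra h
    push Not at h
    exact hm4 ⟨_, h⟩
  have hYN : N ≤ Y := (le_max_left _ _).trans ((le_max_left _ _).trans hYbig)
  have hYy : y₀ ≤ Y := (le_max_right _ _).trans ((le_max_left _ _).trans hYbig)
  have hYZ : Z₀ ≤ Y := (le_max_left _ _).trans ((le_max_right _ _).trans hYbig)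
  have hY32 : 32 ≤ Y := (le_max_right _ _).trans ((le_max_right _ _).trans hYbig)
  set y : ℝ := (Y : ℝ) with hyd
  have hy32 : (32 : ℝ) ≤ y := by
    rw [hyd]
    exact_mod_cast hY32
  have hy0 : 0 < y := by linarith
  have hy1 : 1 ≤ y := by linarith
  have hbig : 32 < y ^ δ := hN Y hYN
  have hhalf : 2 ≤ y ^ (δ / 2) := by
    have h1 : y ^ (δ / 2) * y ^ (δ / 2) = y ^ δ := by
      rw [← Real.rpow_add hy0]
      congr 1
      ring
    have h2 : 0 < y ^ (δ / 2) := Real.rpow_pos_of_pos hy0 _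
    by_contra h3
    push Not at h3
    nlinarith
  -- choice of `b`
  set R : ℝ := y ^ (2 * g - 1 + 5 * δ) with hR
  have hR4 : 4 ≤ R := by
    have h1 : y ^ δ ≤ R := Real.rpow_le_rpow_of_exponent_le hy1 (by linarith)
    linarith
  obtain ⟨m, hm3, hm4'⟩ := exists_nat_pow_near (show (1 : ℝ) ≤ R by linarith)
    (show (1 : ℝ) < 4 by norm_num)
  have hm0 : 1 ≤ m := by
    by_contra h
    have h0 : m = 0 := by omega
    rw [h0] at hm4'
    norm_num at hm4'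
    linarith
  set b : ℕ := m + 1 with hb
  have hb2 : 2 ≤ b := by omega
  set B : ℝ := (4 : ℝ) ^ b with hB
  have hRB : R ≤ B := hm4'.le
  have hBR : B ≤ 4 * R := by
    rw [hB, hb, pow_succ]
    linarith
  have hB1 : 1 ≤ B := by linarith
  set Z : ℕ := 16 ^ b * (2 * Y) with hZ
  have hZr : (Z : ℝ) = B ^ 2 * (2 * y) := by
    have h16 : (16 : ℝ) ^ b = B ^ 2 := by
      rw [hB, ← pow_mul, mul_comm b 2, pow_mul]
      norm_num
    rw [hZ, hyd, ← h16]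
    push_cast
    ring
  have hZ1 : (Z : ℝ) ≤ 32 * y ^ (4 * g - 1 + 10 * δ) := by
    have h1 : R ^ 2 * y = y ^ (4 * g - 1 + 10 * δ) := by
      rw [hR, ← Real.rpow_natCast, ← Real.rpow_mul hy0.le]
      nth_rewrite 2 [← Real.rpow_one y]
      rw [← Real.rpow_add hy0]
      congr 1
      push_cast
      ring
    have h2 : B ^ 2 ≤ (4 * R) ^ 2 := by gcongr
    rw [hZr, ← h1]
    nlinarith
  have hZ2 : (Z : ℝ) ≤ y ^ (3 : ℝ) := by
    refine hZ1.trans ?_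
    have h1 : y ^ (4 * g - 1 + 10 * δ) ≤ y ^ (2 : ℝ) :=
      Real.rpow_le_rpow_of_exponent_le hy1 (by linarith)
    have h2 : y ^ (3 : ℝ) = y * y ^ (2 : ℝ) := by
      nth_rewrite 2 [← Real.rpow_one y]
      rw [← Real.rpow_add hy0]
      norm_num
    rw [h2]
    exact mul_le_mul hy32 h1 (Real.rpow_nonneg hy0.le _) hy0.le
  have hYZn : Y ≤ Z := by
    rw [hZ]
    have h1 : 1 ≤ 16 ^ b := Nat.one_le_pow _ _ (by norm_num)
    nlinarith
  have hZpos : (0 : ℝ) < Z := by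
    have h1 : (Y : ℝ) ≤ (Z : ℝ) := Nat.cast_le.2 hYZn
    exact lt_of_lt_of_le hy0 h1
  have hsq : y ^ (g + 5 * δ / 2) ≤ Real.sqrt (B * y) := by
    apply Real.le_sqrt_of_sq_le
    rw [← Real.rpow_natCast, ← Real.rpow_mul hy0.le]
    have h1 : R * y = y ^ ((g + 5 * δ / 2) * ((2 : ℕ) : ℝ)) := by
      rw [hR]
      nth_rewrite 2 [← Real.rpow_one y]
      rw [← Real.rpow_add hy0]
      congr 1
      push_cast
      ring
    rw [← h1]
    exact mul_le_mul_of_nonneg_right hRB hy0.le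
  have hmain := hZ₀ Z b (2 * Y) Y (hYZ.trans hYZn) hb2 le_rfl (by omega)
    (by
      -- `Z ^ (10 ε) ≤ Y`
      have h1 : (Z : ℝ) ^ (10 * (δ / 15)) ≤ (y ^ (3 : ℝ)) ^ (10 * (δ / 15)) :=
        Real.rpow_le_rpow hZpos.le hZ2 (by positivity)
      refine h1.trans ?_
      rw [← Real.rpow_mul hy0.le]
      calc y ^ (3 * (10 * (δ / 15))) ≤ y ^ (1 : ℝ) :=
            Real.rpow_le_rpow_of_exponent_le hy1 (by linarith)
        _ = y := Real.rpow_one _)
    (by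
      have h1 : (sO (2 * Y) : ℝ) ≤ ((2 * Y : ℕ) : ℝ) ^ (g + δ) := hy₀ _ (by omega)
      refine h1.trans ?_
      push_cast
      have h2 : (2 * y) ^ (g + δ) ≤ y ^ (g + 3 * δ / 2) := by
        rw [Real.mul_rpow (by norm_num) hy0.le]
        have e1 : (2 : ℝ) ^ (g + δ) ≤ 2 := by
          calc (2 : ℝ) ^ (g + δ) ≤ 2 ^ (1 : ℝ) :=
                Real.rpow_le_rpow_of_exponent_le (by norm_num) (by linarith)
            _ = 2 := Real.rpow_one _
        have e2 : y ^ (g + 3 * δ / 2) = y ^ (δ / 2) * y ^ (g + δ) := by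
          rw [← Real.rpow_add hy0]
          congr 1
          ring
        rw [e2]
        exact mul_le_mul_of_nonneg_right (e1.trans hhalf) (Real.rpow_nonneg hy0.le _)
      have h3 : y ^ (-δ) ≤ (Z : ℝ) ^ (-(5 * (δ / 15))) := by
        have e1 : (y ^ (3 : ℝ)) ^ (-(5 * (δ / 15))) ≤ (Z : ℝ) ^ (-(5 * (δ / 15))) :=
          Real.rpow_le_rpow_of_nonpos hZpos hZ2 (by linarith)
        rw [← Real.rpow_mul hy0.le] at e1
        have e2 : 3 * (-(5 * (δ / 15))) = -δ := by ring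
        rwa [e2] at e1
      have h4 : y ^ (g + 3 * δ / 2) = y ^ (g + 5 * δ / 2) * y ^ (-δ) := by
        rw [← Real.rpow_add hy0]
        congr 1
        ring
      refine h2.trans ?_
      rw [h4]
      exact mul_le_mul hsq h3 (Real.rpow_nonneg hy0.le _) (Real.sqrt_nonneg _))
  have h2Y : 2 * Y - Y = Y := by omega
  rw [h2Y] at hmain
  have hl : y ^ (g - δ) * y ^ (g + 5 * δ / 2) ≤ (sO Y : ℝ) * Real.sqrt (B * y) :=
    mul_le_mul hY.le hsq (Real.rpow_nonneg hy0.le _) (Nat.cast_nonneg _)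
  have hr1 : (Z : ℝ) ^ (9 * (δ / 15)) ≤ y ^ (2 * δ) := by
    have h1 : (Z : ℝ) ^ (9 * (δ / 15)) ≤ (y ^ (3 : ℝ)) ^ (9 * (δ / 15)) :=
      Real.rpow_le_rpow hZpos.le hZ2 (by positivity)
    refine h1.trans ?_
    rw [← Real.rpow_mul hy0.le]
    exact Real.rpow_le_rpow_of_exponent_le hy1 (by linarith)
  have hr2 : (sO Z : ℝ) ≤ (32 * y ^ (4 * g - 1 + 10 * δ)) ^ (g + δ) := by
    refine (hy₀ Z (hYy.trans hYZn)).trans ?_
    exact Real.rpow_le_rpow hZpos.le hZ1 (by linarith)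
  have hfin : y ^ (g - δ) * y ^ (g + 5 * δ / 2) ≤
      y ^ (2 * δ) * (32 * y ^ (4 * g - 1 + 10 * δ)) ^ (g + δ) := by
    refine hl.trans (hmain.trans ?_)
    exact mul_le_mul hr1 hr2 (Nat.cast_nonneg _) (Real.rpow_nonneg hy0.le _)
  exact OL_cmp y g δ ε₀ hy1 hδ0 hε₀δ (by linarith) hg2 hbig hfin

end Pool.Agent.EP
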